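import Pool.Agent.H55.FFM.TP

/-!
# Board ffm_modules, row DVL: the valuation of a Gram determinant
-/

set_option autoImplicit false

namespace Pool.Agent.H86.FFM

open Pool.Agent.H55.FFM

theorem v_one {k F S : Type} [Field k] [Field F] [Algebra k F] {v : S → F → ℤ} (hv : Vs k v)
    (s : S) : v s 1 = 0 := by
  have := hv.cst s (1 : k) one_ne_zero
  rwa [map_one] at this

theorem v_neg_one {k F S : Type} [Field k] [Field F] [Algebra k F] {v : S → F → ℤ} (hv : Vs k v)
    (s : S) : v s (-1) = 0 := by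
  have h := hv.mul s (-1) (-1) (by simp) (by simp)
  have h1 : (-1 : F) * (-1) = 1 := by ring
  rw [h1, v_one hv] at h
  omega

theorem v_prod {k F S : Type} [Field k] [Field F] [Algebra k F] {v : S → F → ℤ} (hv : Vs k v)
    (s : S) {ι : Type*} (T : Finset ι) (f : ι → F) (hf : ∀ i ∈ T, f i ≠ 0) :
    v s (∏ i ∈ T, f i) = ∑ i ∈ T, v s (f i) := by
  classical
  induction T using Finset.induction_on with
  | empty => simpa using v_one hv s
  | insert a T ha ih =>
    rw [Finset.prod_insert ha, Finset.sum_insert ha, hv.mul s _ _ (hf a (Finset.mem_insert_self _ _))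
      (Finset.prod_ne_zero_iff.mpr fun i hi => hf i (Finset.mem_insert_of_mem hi)),
      ih fun i hi => hf i (Finset.mem_insert_of_mem hi)]

theorem v_sum {k F S : Type} [Field k] [Field F] [Algebra k F] {v : S → F → ℤ} (hv : Vs k v)
    (s : S) {ι : Type*} (T : Finset ι) (f : ι → F) {E N : ℤ} (hE : 0 ≤ E)
    (h : ∀ i ∈ T, f i ≠ 0 → N ≤ E * v s (f i)) (hs : ∑ i ∈ T, f i ≠ 0) :
    N ≤ E * v s (∑ i ∈ T, f i) := by
  classical
  induction T using Finset.induction_on with
  | empty => simp at hs
  | insert a T ha ih =>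
    rw [Finset.sum_insert ha] at hs ⊢
    have hT : ∀ i ∈ T, f i ≠ 0 → N ≤ E * v s (f i) := fun i hi =>
      h i (Finset.mem_insert_of_mem hi)
    by_cases h1 : f a = 0
    · rw [h1, zero_add] at hs ⊢
      exact ih hT hs
    · by_cases h2 : ∑ i ∈ T, f i = 0
      · rw [h2, add_zero]
        exact h a (Finset.mem_insert_self _ _) h1
      · have h3 := hv.add s (f a) (∑ i ∈ T, f i) h1 h2 hs
        have h4 := ih hT h2
        have h5 := h a (Finset.mem_insert_self _ _) h1
        have h6 := mul_le_mul_of_nonneg_left h3 hE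
        rcases le_total (v s (f a)) (v s (∑ i ∈ T, f i)) with h7 | h7
        · rw [min_eq_left h7] at h6
          linarith
        · rw [min_eq_right h7] at h6
          linarith

theorem pf_DVL (hTRC : T_TRC) : T_DVL := by
  intro k F S _ _ _ v hv τ E s s' hE hE1 hτ M b hb hdet
  rw [Matrix.det_apply'] at hdet ⊢
  refine v_sum hv s' Finset.univ _ (by positivity) (fun π _ hne => ?_) hdet
  have hsg : ((Equiv.Perm.sign π : ℤ) : F) ≠ 0 := left_ne_zero_of_mul hne
  have hpr := right_ne_zero_of_mul hne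
  have hG : ∀ i ∈ Finset.univ, (Matrix.of fun i j => trh τ (b i * b j)) (π i) i ≠ 0 :=
    Finset.prod_ne_zero_iff.mp hpr
  have hsv : v s' ((Equiv.Perm.sign π : ℤ) : F) = 0 := by
    rcases Int.units_eq_one_or (Equiv.Perm.sign π) with h | h
    · rw [h]
      simpa using v_one hv s'
    · rw [h]
      simpa using v_neg_one hv s'
  rw [hv.mul s' _ _ hsg hpr, hsv, zero_add, v_prod hv s' _ _ hG]
  have hle : ∑ i : Fin M, (v s (b (π i)) + v s (b i)) ≤
      ∑ i : Fin M, (E : ℤ) * v s' ((Matrix.of fun i j => trh τ (b i * b j)) (π i) i) := by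
    refine Finset.sum_le_sum fun i _ => ?_
    have h1 := (hTRC k F S v hv τ E s s' hE hE1 hτ (b (π i) * b i)
      (mul_ne_zero (hb _) (hb _))).1 (hG i (Finset.mem_univ _))
    rw [hv.mul s _ _ (hb _) (hb _)] at h1
    exact h1
  rw [← Finset.mul_sum] at hle
  refine le_trans (le_of_eq ?_) hle
  rw [Finset.sum_add_distrib, Equiv.sum_comp π (fun j => v s (b j))]
  ring

end Pool.Agent.H86.FFM
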